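import Pool.Agent.TF.Stmts

/-! Squad TF, row MO1: the pair level of the moves (two doublings). -/

set_option autoImplicit false

namespace Pool.Agent.TF.H28

variable {Ω : Type} [Fintype Ω] {S T U : Type}

theorem heq (L : Lib) (P : Law Ω) (X : Ω → S) (Y : Ω → T) (h1 : P.Det X Y) (h2 : P.Det Y X) :
    P.H X = P.H Y :=
  le_antisymm (L.mon.1 _ _ _ P Y X h2) (L.mon.1 _ _ _ P X Y h1)

theorem csub (L : Lib) (P : Law Ω) (X : Ω → S) (Y : Ω → T) (Z : Ω → U) (h : P.Det Y Z) :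
    P.C X Y ≤ P.C X Z := by
  have h1 := L.sub Ω S T U P X Y Z
  have h2 : P.H (fun ω => (X ω, (Y ω, Z ω))) = P.H (fun ω => (X ω, Y ω)) := by
    apply heq L
    · intro ω ω' p p' e
      simp only [Prod.mk.injEq] at e ⊢
      exact ⟨e.1, e.2.1⟩
    · intro ω ω' p p' e
      simp only [Prod.mk.injEq] at e ⊢
      exact ⟨e.1, e.2, h ω ω' p p' e.2⟩
  have h3 : P.H (fun ω => (Y ω, Z ω)) = P.H Y := by
    apply heq L
    · intro ω ω' p p' e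
      simp only [Prod.mk.injEq] at e
      exact e.1
    · intro ω ω' p p' e
      simp only [Prod.mk.injEq]
      exact ⟨e, h ω ω' p p' e⟩
  unfold Law.C at *
  linarith

theorem hcard (L : Lib) (P : Law Ω) [Fintype S] (X : Ω → S) :
    P.H X ≤ Real.log (Fintype.card S) := by
  have h := L.gib Ω S P X Finset.univ (fun _ => 1) (fun _ _ => by norm_num)
    (fun ω _ => ⟨Finset.mem_univ _, by norm_num⟩)
  have h0 : P.E (fun ω => Real.log ((fun _ : S => (1 : ℝ)) (X ω))) = 0 := by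
    simp [Law.E]
  rw [h0] at h
  simpa using h

/-- `H(X,Y) ≤ H(X) + H(Y)` -/
theorem hadd (L : Lib) (P : Law Ω) (X : Ω → S) (Y : Ω → T) :
    P.H (fun ω => (X ω, Y ω)) ≤ P.H X + P.H Y := by
  have h1 := csub L P X Y (fun _ => ()) (fun _ _ _ _ _ => rfl)
  have h2 : P.H (fun ω => (X ω, (fun _ : Ω => ()) ω)) = P.H X := by
    apply heq L
    · intro ω ω' p p' e
      simp only [Prod.mk.injEq] at e
      exact e.1
    · intro ω ω' p p' e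
      simp only [Prod.mk.injEq]
      exact ⟨e, trivial⟩
  have h3 : 0 ≤ P.H (fun _ : Ω => ()) := L.mon.2 _ _ P _
  unfold Law.C at h1
  rw [h2] at h1
  linarith

/-- a conditionally independent doubling -/
theorem dbl (L : Lib) (P : Law Ω) (f : Ω → S) (X : Ω → T) (h : P.Det f X) :
    ∃ Q : Law (Ω × Ω), (∀ (V : Type) (g : Ω → V), Q.H (fun ω => g ω.1) = P.H g) ∧
      (∀ (V : Type) (g : Ω → V), Q.H (fun ω => g ω.2) = P.H g) ∧
      (∀ ω, Q.p ω ≠ 0 → P.p ω.1 ≠ 0 ∧ P.p ω.2 ≠ 0 ∧ X ω.1 = X ω.2) ∧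
      Q.H (fun ω => (f ω.1, f ω.2)) = 2 * P.H f - P.H X := by
  obtain ⟨Q, h1, h2, h3, _, h5⟩ := L.gl2 Ω Ω T P P X X (fun _ => rfl)
  have e1 : ∀ (V : Type) (g : Ω → V), Q.H (fun ω => g ω.1) = P.H g := by
    intro V g
    exact L.sam.2.1 _ _ _ _ _ _ _ (L.sam.1 _ _ _ _ Q P (fun ω => ω.1) (fun ω => ω) g h1)
  have e2 : ∀ (V : Type) (g : Ω → V), Q.H (fun ω => g ω.2) = P.H g := by
    intro V g
    exact L.sam.2.1 _ _ _ _ _ _ _ (L.sam.1 _ _ _ _ Q P (fun ω => ω.2) (fun ω => ω) g h2)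
  refine ⟨Q, e1, e2, h3, ?_⟩
  have h6 := h5 S S f f
  have h7 : Q.H (fun ω => ((f ω.1, f ω.2), X ω.1)) = Q.H (fun ω => (f ω.1, f ω.2)) := by
    apply heq L
    · intro ω ω' p p' e
      exact (Prod.mk.inj e).1
    · intro ω ω' p p' e
      have e' := Prod.mk.inj e
      simp only [Prod.mk.injEq]
      exact ⟨⟨e'.1, e'.2⟩, h _ _ (h3 ω p).1 (h3 ω' p').1 e'.1⟩
  have h8 : P.H (fun ω => (f ω, X ω)) = P.H f := by
    apply heq L
    · intro ω ω' p p' e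
      exact (Prod.mk.inj e).1
    · intro ω ω' p p' e
      simp only [Prod.mk.injEq]
      exact ⟨e, h _ _ p p' e⟩
  have h9 := e1 T X
  unfold Law.C at h6
  rw [h7, h8, h9] at h6
  linarith

theorem base_mono {G : Type} [AddCommGroup G] [Fintype G] [DecidableEq G] {n : ℕ} {F : Fam G n}
    {l e e' : ℝ} (B : Base F l e) (h : e ≤ e') : Base F l e' where
  e0 := B.e0.trans h
  hN := B.hN
  hn := B.hn.trans (by linarith)
  hlab := fun σ k => (B.hlab σ k).trans (by linarith)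
  hW := B.hW


/-- the algebra of one point of `D k` -/
theorem pt {G : Type} [AddCommGroup G] [Fintype G] [DecidableEq G] {n : ℕ} (F : Fam G n)
    {k : Fin n} {x : G} (h : x ∈ F.D k) : x = F.a k x - F.b k x := (F.sub k x h).symm

theorem mo1 (L : Lib) (upp : UppStmt) (pr2 : Pr2Stmt) : Mo1Stmt := by
  intro G _ _ _ n F l e Ω _ P x y h k1 k2 B hR hH
  classical
  have e0 := B.e0
  -- support facts
  have sx1 : ∀ ω, P.p ω ≠ 0 → x ω ∈ F.D (k1 ω) := fun ω p => (hR ω p).1.2.2.1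
  have sx2 : ∀ ω, P.p ω ≠ 0 → x ω ∈ F.D (k2 ω) := fun ω p => (hR ω p).2.2.2.1
  have sy1 : ∀ ω, P.p ω ≠ 0 → y ω ∈ F.D (k1 ω) := fun ω p => (hR ω p).1.2.2.2.1
  have sy2 : ∀ ω, P.p ω ≠ 0 → y ω ∈ F.D (k2 ω) := fun ω p => (hR ω p).2.2.2.2.1
  have b1 : ∀ ω, P.p ω ≠ 0 → F.b (k1 ω) (y ω) = F.b (k1 ω) (x ω) :=
    fun ω p => (hR ω p).1.2.2.2.2.2.2.1
  have b2 : ∀ ω, P.p ω ≠ 0 → F.b (k2 ω) (y ω) = F.b (k2 ω) (x ω) :=
    fun ω p => (hR ω p).2.2.2.2.2.2.2.1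
  -- log n bounds
  have hlogn : ∀ (Ω' : Type) [Fintype Ω'] (P' : Law Ω') (k : Ω' → Fin n), P'.H k ≤ l / 2 + e := by
    intro Ω' _ P' k
    have := hcard L P' k
    rw [Fintype.card_fin] at this
    exact this.trans B.hn
  -- (x,y,k1,k2)
  have h1 : 9 * l / 4 - 2 * e ≤ P.H (fun ω => ((x ω, y ω), (k1 ω, k2 ω))) := by
    have a := hadd L P (fun ω => ((x ω, y ω), (k1 ω, k2 ω))) h
    have b : P.H (fun ω => (((x ω, y ω), (k1 ω, k2 ω)), h ω))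
        = P.H (fun ω => ((x ω, y ω, h ω), (k1 ω, k2 ω))) := by
      apply heq L
      · intro ω ω' p p' q
        simp only [Prod.mk.injEq] at q ⊢
        tauto
      · intro ω ω' p p' q
        simp only [Prod.mk.injEq] at q ⊢
        tauto
    have c := hlogn Ω P h
    linarith
  have h1' : 9 * l / 4 - 2 * e ≤ P.H (fun ω => ((y ω, x ω), (k1 ω, k2 ω))) := by
    have b : P.H (fun ω => ((x ω, y ω), (k1 ω, k2 ω)))
        = P.H (fun ω => ((y ω, x ω), (k1 ω, k2 ω))) := by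
      apply heq L
      · intro ω ω' p p' q
        simp only [Prod.mk.injEq] at q ⊢
        tauto
      · intro ω ω' p p' q
        simp only [Prod.mk.injEq] at q ⊢
        tauto
    linarith
  have ux := (upp G n F l e Ω P x y k1 k2 B (fun ω p =>
    ⟨sx1 ω p, sx2 ω p, sy1 ω p, sy2 ω p, b1 ω p, b2 ω p⟩)).1
  have uy := (upp G n F l e Ω P y x k1 k2 B (fun ω p =>
    ⟨sy1 ω p, sy2 ω p, sx1 ω p, sx2 ω p, (b1 ω p).symm, (b2 ω p).symm⟩)).1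
  have B7 : Base F l (7 * e) := base_mono B (by linarith)
  have px := pr2 G n F l (7 * e) Ω P x k1 k2 B7 (fun ω p => ⟨sx1 ω p, sx2 ω p⟩) (by linarith)
  have py := pr2 G n F l (7 * e) Ω P y k1 k2 B7 (fun ω p => ⟨sy1 ω p, sy2 ω p⟩) (by linarith)
  obtain ⟨g, hg⟩ : ∃ g : ℝ, g = 20 * (7 * e) := ⟨_, rfl⟩
  rw [← hg] at px py
  -- the five facts
  have f1 : P.C (fun ω => (F.a (k1 ω) (x ω), F.b (k2 ω) (x ω))) (fun ω => (k1 ω, k2 ω))
      ≤ 3 * l / 4 + g := by simpa [Fam.lab] using px.pair true false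
  have f2 : P.C (fun ω => (F.a (k1 ω) (x ω), F.a (k2 ω) (x ω))) (fun ω => (k1 ω, k2 ω))
      ≤ 3 * l / 4 + g := by simpa [Fam.lab] using px.pair true true
  have f3 : P.C (fun ω => F.a (k1 ω) (y ω)) (fun ω => (F.b (k2 ω) (y ω), (k1 ω, k2 ω)))
      ≤ l / 4 + g := by simpa [Fam.lab] using py.kj true false
  have f4 : P.C (fun ω => (F.a (k1 ω) (y ω), F.a (k2 ω) (y ω)))
      (fun ω => (F.a (k1 ω) (y ω) - F.a (k2 ω) (y ω), (k1 ω, k2 ω))) ≤ l / 4 + g := by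
    simpa [Fam.lab, Fam.w] using py.wpair true true
  have f5 : P.C (fun ω => F.a (k2 ω) (x ω)) (fun ω => (F.a (k1 ω) (x ω), (k1 ω, k2 ω)))
      ≤ l / 4 + g := by simpa [Fam.lab] using px.jk true true
  -- names
  obtain ⟨cc, hcc⟩ : ∃ cc : Ω → Fin n × Fin n × Fin n, cc = fun ω => (k1 ω, k2 ω, h ω) := ⟨_, rfl⟩
  have cc1 : ∀ ω ω', cc ω = cc ω' → k1 ω = k1 ω' ∧ k2 ω = k2 ω' ∧ h ω = h ω' := by
    intro ω ω' q
    rw [hcc] at q
    simpa [Prod.mk.injEq] using q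
  have cc2 : ∀ ω ω', k1 ω = k1 ω' → k2 ω = k2 ω' → h ω = h ω' → cc ω = cc ω' := by
    intro ω ω' q1 q2 q3
    rw [hcc]
    simp [q1, q2, q3]
  obtain ⟨F1, hF1⟩ : ∃ F1 : Ω → (G × G) × (Fin n × Fin n × Fin n),
      F1 = fun ω => ((x ω, y ω), cc ω) := ⟨_, rfl⟩
  have HF1 : 11 * l / 4 - e ≤ P.H F1 := by
    have b : P.H F1 = P.H (fun ω => ((x ω, y ω, h ω), (k1 ω, k2 ω))) := by
      apply heq L
      · intro ω ω' p p' q
        rw [hF1] at q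
        simp only [Prod.mk.injEq] at q ⊢
        have := cc1 _ _ q.2
        tauto
      · intro ω ω' p p' q
        rw [hF1]
        simp only [Prod.mk.injEq] at q ⊢
        refine ⟨⟨q.1.1, q.1.2.1⟩, cc2 _ _ q.2.1 q.2.2 q.1.2.2⟩
    linarith
  have HK : P.H cc ≤ 3 * (l / 2 + e) := by
    have a1 := hadd L P k1 (fun ω => (k2 ω, h ω))
    have a2 := hadd L P k2 h
    have a3 := hlogn Ω P k1
    have a4 := hlogn Ω P k2
    have a5 := hlogn Ω P h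
    have a6 : P.H cc = P.H (fun ω => (k1 ω, (fun ω => (k2 ω, h ω)) ω)) := by rw [hcc]
    rw [a6]
    linarith
  -- first doubling
  obtain ⟨X1, hX1⟩ : ∃ X1 : Ω → G × ((G × G) × (Fin n × Fin n × Fin n)),
      X1 = fun ω => (F.a (k1 ω) (y ω), ((F.a (k1 ω) (x ω), F.b (k2 ω) (x ω)), cc ω)) := ⟨_, rfl⟩
  have HX1 : P.H X1 ≤ P.H cc + l + 2 * g := by
    have a1 := csub L P (fun ω => F.a (k1 ω) (y ω))
      (fun ω => ((F.a (k1 ω) (x ω), F.b (k2 ω) (x ω)), cc ω))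
      (fun ω => (F.b (k2 ω) (y ω), (k1 ω, k2 ω))) (by
        intro ω ω' p p' q
        simp only [Prod.mk.injEq] at q ⊢
        have := cc1 _ _ q.2
        refine ⟨?_, this.1, this.2.1⟩
        rw [b2 ω p, b2 ω' p']
        exact q.1.2)
    have a2 := csub L P (fun ω => (F.a (k1 ω) (x ω), F.b (k2 ω) (x ω))) cc
      (fun ω => (k1 ω, k2 ω)) (by
        intro ω ω' p p' q
        have := cc1 _ _ q
        simp only [Prod.mk.injEq]
        exact ⟨this.1, this.2.1⟩)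
    have a3 := a1.trans f3
    have a4 := a2.trans f1
    unfold Law.C at a3 a4
    rw [hX1]
    linarith
  obtain ⟨Q, qe1, qe2, qs, qH⟩ := dbl L P F1 X1 (by
    intro ω ω' p p' q
    rw [hF1] at q
    rw [hX1]
    simp only [Prod.mk.injEq] at q ⊢
    have := cc1 _ _ q.2
    rw [this.1, this.2.1, q.1.1, q.1.2]
    exact ⟨rfl, ⟨rfl, rfl⟩, q.2⟩)
  have qs' : ∀ ω, Q.p ω ≠ 0 → P.p ω.1 ≠ 0 ∧ P.p ω.2 ≠ 0 ∧
      F.a (k1 ω.1) (y ω.1) = F.a (k1 ω.2) (y ω.2) ∧ F.a (k1 ω.1) (x ω.1) = F.a (k1 ω.2) (x ω.2) ∧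
      F.b (k2 ω.1) (x ω.1) = F.b (k2 ω.2) (x ω.2) ∧ cc ω.1 = cc ω.2 := by
    intro ω p
    obtain ⟨p1, p2, p3⟩ := qs ω p
    rw [hX1] at p3
    simp only [Prod.mk.injEq] at p3
    exact ⟨p1, p2, p3.1, p3.2.1.1, p3.2.1.2, p3.2.2⟩
  -- second doubling
  obtain ⟨X2, hX2⟩ : ∃ X2 : Ω × Ω → G × ((G × G) × ((G × G) × (Fin n × Fin n × Fin n))),
      X2 = fun ω => (F.a (k2 ω.2) (x ω.2), ((F.a (k1 ω.1) (y ω.1), F.a (k2 ω.1) (y ω.1)),
        ((F.a (k1 ω.1) (x ω.1), F.a (k2 ω.1) (x ω.1)), cc ω.1))) := ⟨_, rfl⟩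
  have HX2 : Q.H X2 ≤ P.H cc + 5 * l / 4 + 3 * g := by
    have a1 := csub L Q (fun ω => F.a (k2 ω.2) (x ω.2))
      (fun ω => ((F.a (k1 ω.1) (y ω.1), F.a (k2 ω.1) (y ω.1)),
        ((F.a (k1 ω.1) (x ω.1), F.a (k2 ω.1) (x ω.1)), cc ω.1)))
      (fun ω => (F.a (k1 ω.2) (x ω.2), (k1 ω.2, k2 ω.2))) (by
        intro ω ω' p p' q
        simp only [Prod.mk.injEq] at q ⊢
        obtain ⟨_, _, _, u1, _, u2⟩ := qs' ω p
        obtain ⟨_, _, _, v1, _, v2⟩ := qs' ω' p'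
        have := cc1 _ _ ((u2.symm.trans q.2.2).trans v2)
        refine ⟨?_, this.1, this.2.1⟩
        rw [← u1, ← v1]
        exact q.2.1.1)
    have a2 : Q.C (fun ω => F.a (k2 ω.2) (x ω.2))
        (fun ω => (F.a (k1 ω.2) (x ω.2), (k1 ω.2, k2 ω.2)))
        = P.C (fun ω => F.a (k2 ω) (x ω)) (fun ω => (F.a (k1 ω) (x ω), (k1 ω, k2 ω))) := by
      unfold Law.C
      rw [qe2 _ (fun ω => (F.a (k2 ω) (x ω), (F.a (k1 ω) (x ω), (k1 ω, k2 ω)))),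
        qe2 _ (fun ω => (F.a (k1 ω) (x ω), (k1 ω, k2 ω)))]
    rw [a2] at a1
    have a3 := a1.trans f5
    have a4 := csub L P (fun ω => (F.a (k1 ω) (y ω), F.a (k2 ω) (y ω)))
      (fun ω => ((F.a (k1 ω) (x ω), F.a (k2 ω) (x ω)), cc ω))
      (fun ω => (F.a (k1 ω) (y ω) - F.a (k2 ω) (y ω), (k1 ω, k2 ω))) (by
        have key : ∀ ω, P.p ω ≠ 0 → F.a (k1 ω) (y ω) - F.a (k2 ω) (y ω)
            = F.a (k1 ω) (x ω) - F.a (k2 ω) (x ω) := by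
          intro ω p
          have t1 := F.sub _ _ (sx1 ω p)
          have t2 := F.sub _ _ (sx2 ω p)
          have t3 := F.sub _ _ (sy1 ω p)
          have t4 := F.sub _ _ (sy2 ω p)
          have t5 := b1 ω p
          have t6 := b2 ω p
          have r1 : F.a (k1 ω) (y ω) = y ω + F.b (k1 ω) (x ω) := by
            rw [← t5]; exact (sub_eq_iff_eq_add.mp t3)
          have r2 : F.a (k2 ω) (y ω) = y ω + F.b (k2 ω) (x ω) := by
            rw [← t6]; exact (sub_eq_iff_eq_add.mp t4)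
          have r3 : F.a (k1 ω) (x ω) = x ω + F.b (k1 ω) (x ω) := sub_eq_iff_eq_add.mp t1
          have r4 : F.a (k2 ω) (x ω) = x ω + F.b (k2 ω) (x ω) := sub_eq_iff_eq_add.mp t2
          rw [r1, r2, r3, r4]
          abel
        intro ω ω' p p' q
        simp only [Prod.mk.injEq] at q ⊢
        have := cc1 _ _ q.2
        refine ⟨?_, this.1, this.2.1⟩
        rw [key ω p, key ω' p', q.1.1, q.1.2])
    have a5 := a4.trans f4
    have a6 := csub L P (fun ω => (F.a (k1 ω) (x ω), F.a (k2 ω) (x ω))) cc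
      (fun ω => (k1 ω, k2 ω)) (by
        intro ω ω' p p' q
        have := cc1 _ _ q
        simp only [Prod.mk.injEq]
        exact ⟨this.1, this.2.1⟩)
    have a7 := a6.trans f2
    unfold Law.C at a3 a5 a7
    rw [qe1 _ (fun ω => ((F.a (k1 ω) (y ω), F.a (k2 ω) (y ω)),
        ((F.a (k1 ω) (x ω), F.a (k2 ω) (x ω)), cc ω)))] at a3
    rw [hX2]
    linarith
  obtain ⟨F2, hF2⟩ : ∃ F2 : Ω × Ω → ((G × G) × (Fin n × Fin n × Fin n)) ×
      ((G × G) × (Fin n × Fin n × Fin n)), F2 = fun ω => (F1 ω.1, F1 ω.2) := ⟨_, rfl⟩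
  rw [← hF2] at qH
  have f1inj : ∀ ω ω', F1 ω = F1 ω' → x ω = x ω' ∧ y ω = y ω' ∧ cc ω = cc ω' := by
    intro ω ω' q
    rw [hF1] at q
    simp only [Prod.mk.injEq] at q
    exact ⟨q.1.1, q.1.2, q.2⟩
  have f1mk : ∀ ω ω', x ω = x ω' → y ω = y ω' → cc ω = cc ω' → F1 ω = F1 ω' := by
    intro ω ω' q1 q2 q3
    rw [hF1]
    simp [q1, q2, q3]
  obtain ⟨R, re1, re2, rs, rH⟩ := dbl L Q F2 X2 (by
    intro ω ω' p p' q
    rw [hF2] at q
    simp only [Prod.mk.injEq] at q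
    have u := f1inj _ _ q.1
    have v := f1inj _ _ q.2
    have u' := cc1 _ _ u.2.2
    have v' := cc1 _ _ v.2.2
    rw [hX2]
    simp only [Prod.mk.injEq]
    rw [u'.1, u'.2.1, u.1, u.2.1, v'.2.1, v.1]
    exact ⟨rfl, ⟨rfl, rfl⟩, ⟨rfl, rfl⟩, u.2.2⟩)
  have rs' : ∀ ω, R.p ω ≠ 0 → Q.p ω.1 ≠ 0 ∧ Q.p ω.2 ≠ 0 ∧
      F.a (k2 ω.1.2) (x ω.1.2) = F.a (k2 ω.2.2) (x ω.2.2) ∧
      F.a (k1 ω.1.1) (y ω.1.1) = F.a (k1 ω.2.1) (y ω.2.1) ∧
      F.a (k1 ω.1.1) (x ω.1.1) = F.a (k1 ω.2.1) (x ω.2.1) ∧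
      F.a (k2 ω.1.1) (x ω.1.1) = F.a (k2 ω.2.1) (x ω.2.1) ∧ cc ω.1.1 = cc ω.2.1 := by
    intro ω p
    obtain ⟨p1, p2, p3⟩ := rs ω p
    rw [hX2] at p3
    simp only [Prod.mk.injEq] at p3
    exact ⟨p1, p2, p3.1, p3.2.1.1, p3.2.2.1.1, p3.2.2.1.2, p3.2.2.2⟩
  -- the eight points are determined by two opposite ones
  have hdet : R.H (fun ω => (F2 ω.1, F2 ω.2)) ≤ R.H (fun ω => (F1 ω.2.2, F1 ω.1.1)) := by
    apply L.mon.1
    have key : ∀ ω, R.p ω ≠ 0 →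
        x ω.1.2 = F.a (k2 ω.2.2) (x ω.2.2) - F.b (k2 ω.1.1) (x ω.1.1) ∧
        y ω.1.2 = F.a (k1 ω.1.1) (y ω.1.1) - F.b (k1 ω.1.1) (x ω.1.2) ∧
        x ω.2.1 = F.a (k2 ω.1.1) (x ω.1.1) - F.b (k2 ω.2.2) (x ω.2.2) ∧
        y ω.2.1 = F.a (k1 ω.1.1) (y ω.1.1) - F.b (k1 ω.1.1) (x ω.2.1) ∧
        cc ω.1.2 = cc ω.1.1 ∧ cc ω.2.1 = cc ω.1.1 := by
      intro ω p
      obtain ⟨p1, p2, r1, r2, r3, r4, r5⟩ := rs' ω p
      obtain ⟨p11, p12, u1, u2, u3, u4⟩ := qs' _ p1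
      obtain ⟨p21, p22, v1, v2, v3, v4⟩ := qs' _ p2
      have c1 := cc1 _ _ u4
      have c2 := cc1 _ _ r5
      have c3 := cc1 _ _ v4
      refine ⟨?_, ?_, ?_, ?_, u4.symm, r5.symm⟩
      · have w := F.sub _ _ (sx2 _ p12)
        rw [← w, r1, u3]
      · have w := F.sub _ _ (sy1 _ p12)
        have w2 := b1 _ p12
        calc y ω.1.2 = F.a (k1 ω.1.2) (y ω.1.2) - F.b (k1 ω.1.2) (y ω.1.2) := w.symm
          _ = F.a (k1 ω.1.1) (y ω.1.1) - F.b (k1 ω.1.2) (x ω.1.2) := by rw [w2, ← u1]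
          _ = _ := by rw [← c1.1]
      · have w := F.sub _ _ (sx2 _ p21)
        calc x ω.2.1 = F.a (k2 ω.2.1) (x ω.2.1) - F.b (k2 ω.2.1) (x ω.2.1) := w.symm
          _ = _ := by rw [← r4, v3]
      · have w := F.sub _ _ (sy1 _ p21)
        have w2 := b1 _ p21
        calc y ω.2.1 = F.a (k1 ω.2.1) (y ω.2.1) - F.b (k1 ω.2.1) (y ω.2.1) := w.symm
          _ = F.a (k1 ω.1.1) (y ω.1.1) - F.b (k1 ω.2.1) (x ω.2.1) := by rw [w2, ← r2]
          _ = _ := by rw [← c2.1]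
    intro ω ω' p p' q
    simp only [Prod.mk.injEq] at q
    have s1 := f1inj _ _ q.1
    have s2 := f1inj _ _ q.2
    have d1 := cc1 _ _ s1.2.2
    have d2 := cc1 _ _ s2.2.2
    obtain ⟨g1, g2, g3, g4, g5, g6⟩ := key ω p
    obtain ⟨j1, j2, j3, j4, j5, j6⟩ := key ω' p'
    have z1 : x ω.1.2 = x ω'.1.2 := by
      rw [g1, j1, s1.1, s2.1, d1.2.1, d2.2.1]
    have z2 : y ω.1.2 = y ω'.1.2 := by
      rw [g2, j2, s2.2.1, d2.1, z1]
    have z3 : x ω.2.1 = x ω'.2.1 := by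
      rw [g3, j3, s1.1, s2.1, d1.2.1, d2.2.1]
    have z4 : y ω.2.1 = y ω'.2.1 := by
      rw [g4, j4, s2.2.1, d2.1, z3]
    have z5 : cc ω.1.2 = cc ω'.1.2 := by rw [g5, j5, s2.2.2]
    have z6 : cc ω.2.1 = cc ω'.2.1 := by rw [g6, j6, s2.2.2]
    rw [hF2]
    simp only [Prod.mk.injEq]
    exact ⟨⟨q.2, f1mk _ _ z1 z2 z5⟩, f1mk _ _ z3 z4 z6, q.1⟩
  -- the two opposite points have the same labels `a_1`
  obtain ⟨Z, hZ⟩ : ∃ Z : Ω → (Fin n × Fin n × Fin n) × (G × G),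
      Z = fun ω => ((k1 ω, k2 ω, h ω), (F.a (k1 ω) (x ω), F.a (k1 ω) (y ω))) := ⟨_, rfl⟩
  have hup := csub L R (fun ω => F1 ω.2.2) (fun ω => F1 ω.1.1) (fun ω => Z ω.2.2) (by
    have key : ∀ ω, R.p ω ≠ 0 → Z ω.2.2 = Z ω.1.1 := by
      intro ω p
      obtain ⟨p1, p2, r1, r2, r3, r4, r5⟩ := rs' ω p
      obtain ⟨p11, p12, u1, u2, u3, u4⟩ := qs' _ p1
      obtain ⟨p21, p22, v1, v2, v3, v4⟩ := qs' _ p2
      have c := cc1 _ _ (r5.trans v4)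
      rw [hZ]
      simp only [Prod.mk.injEq]
      exact ⟨⟨c.1.symm, c.2.1.symm, c.2.2.symm⟩, (r3.trans v2).symm, (r2.trans v1).symm⟩
    intro ω ω' p p' q
    have s2 := f1inj _ _ q
    have d2 := cc1 _ _ s2.2.2
    show Z ω.2.2 = Z ω'.2.2
    rw [key ω p, key ω' p', hZ]
    simp only [Prod.mk.injEq]
    rw [d2.1, d2.2.1, d2.2.2, s2.1, s2.2.1]
    exact ⟨⟨rfl, rfl, rfl⟩, rfl, rfl⟩)
  unfold Law.C at hup
  have hh1 : R.H (fun ω => F1 ω.1.1) = P.H F1 := by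
    rw [re1 _ (fun ω => F1 ω.1), qe1 _ F1]
  have hh2 : R.H (fun ω => Z ω.2.2) = P.H Z := by
    rw [re2 _ (fun ω => Z ω.2), qe2 _ Z]
  have hh3 : R.H (fun ω => (F1 ω.2.2, Z ω.2.2)) = P.H F1 := by
    rw [re2 _ (fun ω => (F1 ω.2, Z ω.2)), qe2 _ (fun ω => (F1 ω, Z ω))]
    apply heq L
    · intro ω ω' p p' q
      exact (Prod.mk.inj q).1
    · intro ω ω' p p' q
      have s2 := f1inj _ _ q
      have d2 := cc1 _ _ s2.2.2
      rw [hZ]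
      simp only [Prod.mk.injEq]
      rw [d2.1, d2.2.1, d2.2.2, s2.1, s2.2.1]
      exact ⟨q, ⟨rfl, rfl, rfl⟩, rfl, rfl⟩
  rw [hh1, hh2, hh3] at hup
  rw [← hZ]
  linarith

end Pool.Agent.TF.H28
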